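import Pool.Agent.X110.NB6
import Pool.Agent.Y753.SHR.Star
import Pool.Agent.Y901.SHR.Diag

set_option autoImplicit false

/-!
MP_91b7ff_nt. The length of the Dirichlet polynomials which approximate a real power of zeta near the critical line in
mean square: the exact relative error at every length, with the transition at `log N ≍ 1 / δ`, and the optimality of
the polynomials with the coefficients of the power of zeta among all Dirichlet polynomials of the same length.
-/

open Filter Topology MeasureTheory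

namespace Pool.Agent.Results.MP_91b7ff_nt.LengthThreshold

/-- the generalised divisor function `d_κ`, the multiplicative function with
`d_κ(p^e) = κ (κ + 1) ... (κ + e - 1) / e!` (the coefficients of `ζ^κ`) -/
noncomputable def dk (κ : ℝ) (n : ℕ) : ℝ :=
  n.factorization.prod fun _ e => ∏ i ∈ Finset.range e, (κ + i) / ((i : ℝ) + 1)

/-- the arithmetic factor `a(κ)` of the moment of order `2 κ` -/
noncomputable def ak (κ : ℝ) : ℝ :=
  ∏' p : Nat.Primes, ((1 - 1 / (p : ℝ)) ^ (κ ^ 2) *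
    ∑' m : ℕ, (Real.Gamma (κ + m) / (Real.Gamma κ * (m.factorial : ℝ))) ^ 2 / (p : ℝ) ^ m)

lemma ak_eq {k : ℝ} (hk : 0 < k) : ak k = Pool.Agent.H306R2.aF k := by
  have e1 : ∀ m : ℕ, Real.Gamma (k + m) / (Real.Gamma k * (m.factorial : ℝ)) = Pool.Agent.H306R2.lc k m := by
    intro m
    have hG : Real.Gamma k ≠ 0 := (Real.Gamma_pos_of_pos hk).ne'
    induction m with
    | zero =>
      unfold Pool.Agent.H306R2.lc
      simp [hG]
    | succ m ih =>
      have h1 : Pool.Agent.H306R2.lc k (m + 1) = Pool.Agent.H306R2.lc k m * ((k + m) / ((m : ℝ) + 1)) := by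
        unfold Pool.Agent.H306R2.lc
        rw [Finset.prod_range_succ]
      have hkm : k + (m : ℝ) ≠ 0 := by positivity
      have h2 : Real.Gamma (k + ((m + 1 : ℕ) : ℝ)) = (k + m) * Real.Gamma (k + m) := by
        rw [← Real.Gamma_add_one hkm]
        congr 1
        push_cast
        ring
      have hf : (m.factorial : ℝ) ≠ 0 := by positivity
      rw [h1, ← ih, h2, Nat.factorial_succ]
      push_cast
      field_simp
  unfold ak Pool.Agent.H306R2.aF
  refine tprod_congr fun p => ?_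
  simp_rw [e1, one_div, inv_pow, div_eq_mul_inv]

/-- the share of the moment beyond the length -/
lemma tail_eq {κ l : ℝ} (hκ : 0 < κ) (hl : 0 ≤ l) : 1 - Pool.Agent.X110.NA.Fd κ (2 * l) =
    (∫ x in Set.Ioi (2 * l), x ^ (κ ^ 2 - 1) * Real.exp (-x)) / Real.Gamma (κ ^ 2) := by
  have h1 : Pool.Agent.X110.NA.Fd κ (2 * l) + ∫ u in Set.Ioi (2 * l), Pool.Agent.X110.NA.rho κ u = 1 := by
    rw [← Pool.Agent.X110.NA.rho_total hκ]
    unfold Pool.Agent.X110.NA.Fd
    rw [← Set.compl_Iic]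
    exact integral_add_compl measurableSet_Iic (Pool.Agent.X110.NA.rho_int hκ)
  have h2 : ∫ u in Set.Ioi (2 * l), Pool.Agent.X110.NA.rho κ u =
      (∫ x in Set.Ioi (2 * l), x ^ (κ ^ 2 - 1) * Real.exp (-x)) / Real.Gamma (κ ^ 2) := by
    rw [← integral_div]
    refine setIntegral_congr_fun measurableSet_Ioi fun u hu => ?_
    have hu' : 0 < u := lt_of_le_of_lt (by positivity) (Set.mem_Ioi.mp hu)
    unfold Pool.Agent.X110.NA.rho Pool.Agent.H306R2.gd
    rw [if_pos hu', one_mul]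
    ring
  rw [← h2]
  linarith

/-- **The exact error of the approximation of a power of zeta by Dirichlet polynomials of given length.** -/
theorem result
    (δ : ℝ → ℝ) (hδ : Tendsto δ atTop (𝓝 0)) (hδL : Tendsto (fun T : ℝ => δ T * Real.log T) atTop atTop)
    (R : Set ℝ) (hR : R.Countable) (hR0 : ∀ r ∈ R, 0 < r ∧ r ≤ 2) :
    ∃ w : ℝ → ℝ → ℂ, (∀ T, Measurable (w T)) ∧
      (∀ᶠ T in atTop, ∀ u : ℝ, riemannZeta (1 / 2 + δ T + Complex.I * (u : ℂ)) ≠ 0 →
        Complex.exp (w T u) = riemannZeta (1 / 2 + δ T + Complex.I * (u : ℂ))) ∧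
      ∀ κ ∈ R, ∀ (N : ℝ → ℕ) (l : ℝ), Tendsto (fun T => δ T * Real.log (N T)) atTop (𝓝 l) →
        Tendsto (fun T : ℝ => (2 * δ T) ^ (κ ^ 2) / T *
          ∫ t in Set.Icc 0 T, ‖Complex.exp (κ * w T t) -
            ∑ n ∈ Finset.Icc 1 (N T), (dk κ n : ℂ) * (n : ℂ) ^ (-(1 / 2 + δ T + Complex.I * (t : ℂ)))‖ ^ 2) atTop
          (𝓝 (ak κ * ((∫ x in Set.Ioi (2 * l), x ^ (κ ^ 2 - 1) * Real.exp (-x)) / Real.Gamma (κ ^ 2)))) ∧
        ∀ (c : ℝ → ℕ → ℂ) (ε : ℝ), 0 < ε → ∀ᶠ T in atTop,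
          ak κ * ((∫ x in Set.Ioi (2 * l), x ^ (κ ^ 2 - 1) * Real.exp (-x)) / Real.Gamma (κ ^ 2)) - ε ≤
          (2 * δ T) ^ (κ ^ 2) / T * ∫ t in Set.Icc 0 T, ‖Complex.exp (κ * w T t) -
            ∑ n ∈ Finset.Icc 1 (N T), c T n * (n : ℂ) ^ (-(1 / 2 + δ T + Complex.I * (t : ℂ)))‖ ^ 2 := by
  obtain ⟨w, hwm, hw, hm⟩ := Pool.Agent.X110.NA.thr_lower Pool.Agent.Y901.SHR.done
    Pool.Agent.Y753.SHR.star hδ hδL hR fun r hr => (hR0 r hr).1
  have e4 : ∀ (T t : ℝ), (1 / 2 + δ T + (t : ℂ) * Complex.I : ℂ) = 1 / 2 + δ T + Complex.I * (t : ℂ) := fun T t => by ring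
  have hpos : ∀ᶠ T in atTop, 0 < δ T := by
    filter_upwards [hδL.eventually_gt_atTop 0, eventually_gt_atTop 1] with T hT hT1
    exact (pos_iff_pos_of_mul_pos hT).mpr (Real.log_pos hT1)
  refine ⟨w, hwm, ?_, ?_⟩
  · filter_upwards [hw] with T hT u hu
    rw [← e4] at hu ⊢
    exact hT u hu
  · intro κ hκ N l hN
    obtain ⟨hκ0, hκ2⟩ := hR0 κ hκ
    have hl : 0 ≤ l := by
      refine ge_of_tendsto hN ?_
      filter_upwards [hpos] with T hT
      exact mul_nonneg hT.le (Real.log_natCast_nonneg _)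
    have hz : ∀ T t, Pool.Agent.Y753.SHR.zr (w T) (δ T) (fun _ : Fin 1 => κ) (fun _ => 0) t = Complex.exp (κ * w T t) := by
      intro T t
      unfold Pool.Agent.Y753.SHR.zr
      rw [Fin.prod_univ_one]
      simp
    obtain ⟨h1, h2⟩ := hm κ hκ hκ2 N l hN
    rw [← tail_eq hκ0 hl, ak_eq hκ0]
    refine ⟨h1.congr fun T => ?_, fun c ε hε => ?_⟩
    · congr 1
      refine integral_congr_ae (Eventually.of_forall fun t => ?_)
      dsimp only
      rw [hz]
      unfold Pool.Agent.Y753.SHR.pr Pool.Agent.Y753.SHR.Dr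
      rw [map_sum]
      congr 3
      refine Finset.sum_congr rfl fun n hn => ?_
      have hn0 : n ≠ 0 := by rw [Finset.mem_Icc] at hn; omega
      rw [Pool.Agent.Y753.SH.ec_single, e4]
      congr 1
      unfold Pool.Agent.Y753.SHR.dr
      rw [Fin.prod_univ_one, Pool.Agent.Y753.SHR.tk_apply _ _ hn0]
      unfold dk Pool.Agent.H306R2.dv Pool.Agent.H306R2.lc
      rw [if_neg hn0]
      simp
    · filter_upwards [h2 c ε hε] with T hT
      unfold Pool.Agent.X110.NA.bp at hT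
      simp_rw [hz, e4] at hT
      exact hT

end Pool.Agent.Results.MP_91b7ff_nt.LengthThreshold
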