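import Pool.Agent.X110.NA3
import Pool.Agent.Y753.SHR.Star
import Pool.Agent.Y901.SHR.Diag

set_option autoImplicit false

/-!
MP_91b7ff_nt. Near the critical line, and off small sets of large values of the zeta function, the products of
shifted real powers of zeta are approximated in mean square, with a relative error tending to zero, by their
Dirichlet polynomials of every length `N(T) ≤ T` with `δ(T) log N(T) → ∞`.
-/

open Filter Topology MeasureTheory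

namespace Pool.Agent.Results.MP_91b7ff_nt.ShortPolynomials

/-- the generalised divisor function `d_κ`, the multiplicative function with
`d_κ(p^e) = κ (κ + 1) ... (κ + e - 1) / e!` (the coefficients of `ζ^κ`) -/
noncomputable def dk (κ : ℝ) (n : ℕ) : ℝ :=
  n.factorization.prod fun _ e => ∏ i ∈ Finset.range e, (κ + i) / ((i : ℝ) + 1)

/-- the arithmetic function `n ↦ d_κ(n) n^{-ih}`, the coefficients of `ζ(s + ih)^κ` -/
noncomputable def dkh (κ h : ℝ) : ArithmeticFunction ℂ :=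
  ⟨fun n => if n = 0 then 0 else (dk κ n : ℂ) * (n : ℂ) ^ (-(Complex.I * (h : ℂ))), by simp⟩

/-- the coefficients of `∏_j ζ(s + i h_j)^{κ_j}`: a product for the Dirichlet convolution -/
noncomputable def coef {m : ℕ} (κ h : Fin m → ℝ) : ArithmeticFunction ℂ := ∏ j, dkh (κ j) (h j)

lemma dkh_eq (κ h : ℝ) : dkh κ h = Pool.Agent.Y753.SH.tk κ h := by
  ext n
  rcases Nat.eq_zero_or_pos n with h0 | h0
  · subst h0; simp
  · rw [Pool.Agent.Y753.SHR.tk_apply κ h h0.ne']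
    show (if n = 0 then 0 else (dk κ n : ℂ) * (n : ℂ) ^ (-(Complex.I * (h : ℂ)))) = _
    rw [if_neg h0.ne', mul_comm Complex.I]
    unfold dk Pool.Agent.H306R2.dv Pool.Agent.H306R2.lc
    rw [if_neg h0.ne']

lemma coef_eq {m : ℕ} (κ h : Fin m → ℝ) : coef κ h = Pool.Agent.Y753.SHR.dr κ h := by
  unfold coef Pool.Agent.Y753.SHR.dr
  simp_rw [dkh_eq]

/-- **Approximation of products of shifted real powers of zeta by short Dirichlet polynomials.** -/
theorem result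
    (δ : ℝ → ℝ) (hδ : Tendsto δ atTop (𝓝 0)) (hδL : Tendsto (fun T : ℝ => δ T * Real.log T) atTop atTop)
    (c : ℝ) (hc : 0 ≤ c) (S R : Set ℝ) (hS : S.Countable) (hR : R.Countable) (hR0 : ∀ r ∈ R, 0 < r) :
    ∃ (E : ℝ → Set ℝ) (w : ℝ → ℝ → ℂ), (∀ T, MeasurableSet (E T) ∧ Measurable (w T) ∧ ∀ t ∈ E T, 0 ≤ t ∧ t ≤ T ∧
        ∃ a ∈ S, (δ T) ^ (-(2 + c)) < ‖riemannZeta (1 / 2 + δ T + Complex.I * ((t + a * δ T : ℝ) : ℂ))‖) ∧
      Tendsto (fun T => (volume (E T)).toReal / (T * (δ T) ^ (4 + 4 * c))) atTop (𝓝 0) ∧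
      (∀ᶠ T in atTop, ∀ u : ℝ, riemannZeta (1 / 2 + δ T + Complex.I * (u : ℂ)) ≠ 0 →
        Complex.exp (w T u) = riemannZeta (1 / 2 + δ T + Complex.I * (u : ℂ))) ∧
      ∀ (m : ℕ) (κ a : Fin m → ℝ) (s : ℝ), 0 < s → ∑ j, κ j = s → (∀ j, κ j ∈ R) → (∀ j, a j ∈ S) →
        ∀ N : ℝ → ℕ, (∀ᶠ T in atTop, (N T : ℝ) ≤ T) → Tendsto (fun T => δ T * Real.log (N T)) atTop atTop →
        ((s ≤ 2 ∨ 2 + 2 * c ≤ s) → Tendsto (fun T : ℝ => (2 * δ T) ^ (s ^ 2) / T *
          ∫ t in Set.Icc 0 T \ E T, ‖(∏ j, Complex.exp (κ j * w T (t + a j * δ T))) -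
            ∑ n ∈ Finset.Icc 1 (N T), coef κ (fun j => a j * δ T) n *
              (n : ℂ) ^ (-(1 / 2 + δ T + Complex.I * (t : ℂ)))‖ ^ 2) atTop (𝓝 0)) ∧
        (s ≤ 2 → Tendsto (fun T : ℝ => (2 * δ T) ^ (s ^ 2) / T *
          ∫ t in Set.Icc 0 T, ‖(∏ j, Complex.exp (κ j * w T (t + a j * δ T))) -
            ∑ n ∈ Finset.Icc 1 (N T), coef κ (fun j => a j * δ T) n *
              (n : ℂ) ^ (-(1 / 2 + δ T + Complex.I * (t : ℂ)))‖ ^ 2) atTop (𝓝 0)) := by
  obtain ⟨E, w, hE, hvol, hw, hm⟩ := Pool.Agent.X110.NA.approx_small Pool.Agent.Y901.SHR.done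
    Pool.Agent.Y753.SHR.star hδ hδL hc hS hR hR0
  have e4 : ∀ (T t : ℝ), (1 / 2 + δ T + (t : ℂ) * Complex.I : ℂ) = 1 / 2 + δ T + Complex.I * (t : ℂ) := fun T t => by ring
  refine ⟨E, w, fun T => ⟨(hE T).1, (hE T).2.2.1, fun t ht => ⟨((hE T).2.1 ht).1, ((hE T).2.1 ht).2, ?_⟩⟩, hvol, ?_, ?_⟩
  · obtain ⟨a, ha, h1⟩ := (hE T).2.2.2 t ht
    refine ⟨a, ha, ?_⟩
    unfold Pool.Agent.Y753.SHR.za at h1
    rwa [e4] at h1
  · filter_upwards [hw] with T hT u hu
    rw [← e4] at hu ⊢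
    exact hT u hu
  · intro m κ a s hs hκs hκ ha N hN hN'
    have hm0 : 1 ≤ m := by
      rcases Nat.eq_zero_or_pos m with h | h
      · subst h; rw [Finset.univ_eq_empty, Finset.sum_empty] at hκs; linarith
      · exact h
    have e5 : ∀ T t : ℝ, (∏ j, Complex.exp (κ j * w T (t + a j * δ T))) -
            ∑ n ∈ Finset.Icc 1 (N T), coef κ (fun j => a j * δ T) n *
              (n : ℂ) ^ (-(1 / 2 + δ T + Complex.I * (t : ℂ))) =
        Pool.Agent.Y753.SHR.zr (w T) (δ T) κ a t - Pool.Agent.Y753.SHR.pr (δ T) κ a (N T) t := by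
      intro T t
      unfold Pool.Agent.Y753.SHR.zr Pool.Agent.Y753.SHR.pr Pool.Agent.Y753.SHR.Dr
      congr 1
      rw [map_sum]
      refine Finset.sum_congr rfl fun n _ => ?_
      rw [Pool.Agent.Y753.SH.ec_single, coef_eq, e4]
    simp_rw [e5]
    obtain ⟨h1, h2, -⟩ := hm m κ a s N hm0 hκs hκ ha hN hN'
    refine ⟨fun hcase => h1 ?_, h2⟩
    rcases hcase with h | h
    · left; exact h
    · right; linarith

end Pool.Agent.Results.MP_91b7ff_nt.ShortPolynomials
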