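import Pool.Agent.X110.NB9
import Pool.Agent.X110.NC1
import Pool.Agent.Y753.SHR.Star
import Pool.Agent.Y901.SHR.Diag

set_option autoImplicit false

/-!
MP_91b7ff_nt. The twisted mixed moments of zeta near the critical line: the averages of products of shifted real powers
of zeta (of total order `2s`) and of two arbitrary absolutely convergent Dirichlet series, in particular of `(m/n)^(it)`.
-/

open Filter Topology MeasureTheory

namespace Pool.Agent.Results.MP_91b7ff_nt.TwistedMixedMoments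

/-- the value `d_s(p^j) = Γ(s + j) / (Γ(s) j!)` of the generalised divisor function at the powers of a prime -/
noncomputable def dp (s : ℝ) (j : ℕ) : ℝ := Real.Gamma (s + j) / (Real.Gamma s * (j.factorial : ℝ))

/-- the arithmetic factor `a(s)` of the moment of order `2 s` -/
noncomputable def ak (s : ℝ) : ℝ :=
  ∏' p : Nat.Primes, ((1 - 1 / (p : ℝ)) ^ (s ^ 2) * ∑' j : ℕ, dp s j ^ 2 / (p : ℝ) ^ j)

/-- the local factor of the twist at a prime `p` which divides `m` exactly `u` times and `n` exactly `v` times -/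
noncomputable def loc (s : ℝ) (p u v : ℕ) : ℝ :=
  (∑' j : ℕ, dp s (u + j) * dp s (v + j) / (p : ℝ) ^ j) / ∑' j : ℕ, dp s j ^ 2 / (p : ℝ) ^ j

/-- the arithmetic factor of the twist by `(m/n)^(it)` for coprime `m`, `n` -/
noncomputable def tf (s : ℝ) (m n : ℕ) : ℝ :=
  1 / Real.sqrt (m * n) * ∏ p ∈ (m * n).primeFactors, loc s p (m.factorization p) (n.factorization p)

/-- the set `D(T)` of the integration: `[0, T]` without `E(T)`, for the orders `2 s` with `s ≤ 2` or `s ≥ 2 + 2c`, or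
the whole of `[0, T]` for `s ≤ 2` -/
def Admissible (E : ℝ → Set ℝ) (c s : ℝ) (D : ℝ → Set ℝ) : Prop :=
  ((s ≤ 2 ∨ 2 + 2 * c ≤ s) ∧ ∀ T, D T = Set.Icc 0 T \ E T) ∨ (s ≤ 2 ∧ ∀ T, D T = Set.Icc 0 T)

lemma dp_eq {k : ℝ} (hk : 0 < k) (m : ℕ) : dp k m = Pool.Agent.H306R2.lc k m := by
  unfold dp
  have hG : Real.Gamma k ≠ 0 := (Real.Gamma_pos_of_pos hk).ne'
  induction m with
  | zero =>
    unfold Pool.Agent.H306R2.lc
    simp [hG]
  | succ m ih =>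
    have h1 : Pool.Agent.H306R2.lc k (m + 1) = Pool.Agent.H306R2.lc k m * ((k + m) / ((m : ℝ) + 1)) := by
      unfold Pool.Agent.H306R2.lc
      rw [Finset.prod_range_succ]
    have hkm : k + (m : ℝ) ≠ 0 := by positivity
    have h2 : Real.Gamma (k + ((m + 1 : ℕ) : ℝ)) = (k + m) * Real.Gamma (k + m) := by
      rw [← Real.Gamma_add_one hkm]
      congr 1
      push_cast
      ring
    have hf : (m.factorial : ℝ) ≠ 0 := by positivity
    rw [h1, ← ih, h2, Nat.factorial_succ]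
    push_cast
    field_simp

lemma ak_eq {k : ℝ} (hk : 0 < k) : ak k = Pool.Agent.H306R2.aF k := by
  unfold ak Pool.Agent.H306R2.aF
  refine tprod_congr fun p => ?_
  simp_rw [dp_eq hk, one_div, inv_pow, div_eq_mul_inv]

lemma Lf_eq {s : ℝ} (hs : 0 < s) {p : ℕ} (hp : p.Prime) (a b : ℕ) :
    Pool.Agent.X110.NA.Lf s 0 p a b = ∑' j : ℕ, dp s (a + j) * dp s (b + j) / (p : ℝ) ^ j := by
  unfold Pool.Agent.X110.NA.Lf
  refine tsum_congr fun j => ?_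
  rw [dp_eq hs, dp_eq hs, Pool.Agent.X110.NA.rp0_sq hp, inv_pow, div_eq_mul_inv]

lemma tf_eq {s : ℝ} (hs : 0 < s) (m n : ℕ) :
    ((m:ℝ) * n) ^ (-(1 / 2 : ℝ)) * Pool.Agent.X110.NA.Tf s m n = tf s m n := by
  unfold tf Pool.Agent.X110.NA.Tf
  rw [Real.rpow_neg (by positivity), ← Real.sqrt_eq_rpow, one_div]
  congr 1
  refine Finset.prod_congr rfl fun p hp => ?_
  have hpp := Nat.prime_of_mem_primeFactors hp
  rw [Lf_eq hs hpp, Lf_eq hs hpp]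
  unfold loc
  simp only [zero_add, sq]

/-- **The twisted mixed moments near the critical line.** -/
theorem result
    (δ : ℝ → ℝ) (hδ : Tendsto δ atTop (𝓝 0)) (hδL : Tendsto (fun T : ℝ => δ T * Real.log T) atTop atTop)
    (c : ℝ) (hc : 0 ≤ c) (S R : Set ℝ) (hS : S.Countable) (hR : R.Countable) (hR0 : ∀ r ∈ R, 0 < r) :
    ∃ (E : ℝ → Set ℝ) (w : ℝ → ℝ → ℂ), (∀ T, MeasurableSet (E T) ∧ Measurable (w T) ∧ ∀ t ∈ E T, 0 ≤ t ∧ t ≤ T ∧
        ∃ x ∈ S, (δ T) ^ (-(2 + c)) < ‖riemannZeta (1 / 2 + δ T + Complex.I * ((t + x * δ T : ℝ) : ℂ))‖) ∧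
      Tendsto (fun T => (volume (E T)).toReal / (T * (δ T) ^ (4 + 4 * c))) atTop (𝓝 0) ∧
      (∀ᶠ T in atTop, ∀ u : ℝ, riemannZeta (1 / 2 + δ T + Complex.I * (u : ℂ)) ≠ 0 →
        Complex.exp (w T u) = riemannZeta (1 / 2 + δ T + Complex.I * (u : ℂ))) ∧
      ∀ s : ℝ, 0 < s → ∀ D : ℝ → Set ℝ, Admissible E c s D →
        ∀ (k l : ℕ) (κ a : Fin k → ℝ) (τ b : Fin l → ℝ), (∀ j, κ j ∈ R) → (∀ i, τ i ∈ R) → (∀ j, a j ∈ S) → (∀ i, b i ∈ S) →
          ∑ j, κ j = s → ∑ i, τ i = s →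
          ∀ x y : ℕ+ → ℂ, Summable (fun m => ‖x m‖) → Summable (fun n => ‖y n‖) →
          Tendsto (fun T : ℝ => (((2 * δ T) ^ (s ^ 2) / T : ℝ) : ℂ) * ∫ t in D T,
            (∏ j, Complex.exp (κ j * w T (t + a j * δ T))) * (starRingEnd ℂ) (∏ i, Complex.exp (τ i * w T (t + b i * δ T))) *
              ((∑' m : ℕ+, x m * ((m : ℕ) : ℂ) ^ (Complex.I * (t : ℂ))) *
                ∑' n : ℕ+, y n * ((n : ℕ) : ℂ) ^ (-(Complex.I * (t : ℂ))))) atTop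
            (𝓝 ((ak s : ℂ) * (∏ j, ∏ i, (1 + Complex.I * ((a j - b i : ℝ) : ℂ) / 2) ^ (-((κ j * τ i : ℝ) : ℂ))) *
              ∑' q : ℕ+ × ℕ+, x q.1 * y q.2 *
                ((tf s ((q.1 : ℕ) / (q.1 : ℕ).gcd q.2) ((q.2 : ℕ) / (q.1 : ℕ).gcd q.2) : ℝ) : ℂ))) := by
  obtain ⟨E, w, hE, hvol, hw, hm⟩ := Pool.Agent.X110.NA.twist_mixed Pool.Agent.Y901.SHR.done
    Pool.Agent.Y753.SHR.star hδ hδL hc hS hR hR0
  have e4 : ∀ (T t : ℝ), (1 / 2 + δ T + (t : ℂ) * Complex.I : ℂ) = 1 / 2 + δ T + Complex.I * (t : ℂ) := fun T t => by ring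
  have hpos : ∀ᶠ T in atTop, 0 < δ T := by
    filter_upwards [hδL.eventually_gt_atTop 0, eventually_gt_atTop 1] with T hT hT1
    exact (pos_iff_pos_of_mul_pos hT).mpr (Real.log_pos hT1)
  refine ⟨E, w, fun T => ⟨(hE T).1, (hE T).2.2.1, fun t ht => ⟨((hE T).2.1 ht).1, ((hE T).2.1 ht).2, ?_⟩⟩, hvol, ?_, ?_⟩
  · obtain ⟨x, hx, h1⟩ := (hE T).2.2.2 t ht
    refine ⟨x, hx, ?_⟩
    unfold Pool.Agent.Y753.SHR.za at h1
    rwa [e4] at h1
  · filter_upwards [hw] with T hT u hu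
    rw [← e4] at hu ⊢
    exact hT u hu
  · intro s hs D hD k l κ a τ b hκ hτ ha hb hκs hτs x y hx hy
    have hc0 : ∀ᶠ T in atTop, 0 ≤ (2 * δ T) ^ (s ^ 2) / T := by
      filter_upwards [hpos, eventually_gt_atTop 0] with T t1 t2
      positivity
    obtain ⟨⟨B, hB⟩, htw⟩ := hm s hs D (by
      rcases hD with h | h
      · left
        refine ⟨?_, h.2⟩
        rcases h.1 with h' | h'
        · left; exact h'
        · right; linarith
      · right; exact h) k l κ a τ b hκ hτ ha hb hκs hτs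
    have h5 := Pool.Agent.X110.NA.twist_series_c
      (fun m n => ((((m:ℝ) * n) ^ (-(1 / 2 : ℝ)) : ℝ) : ℂ) * ((Pool.Agent.H306R2.aF s : ℂ) *
        Pool.Agent.X110.NA.Mx κ a τ b * ((Pool.Agent.X110.NA.Tf s m n : ℝ) : ℂ)))
      (fun T t => Pool.Agent.Y753.SHR.zr (w T) (δ T) κ a t * (starRingEnd ℂ) (Pool.Agent.Y753.SHR.zr (w T) (δ T) τ b t)) D
      (fun T => (2 * δ T) ^ (s ^ 2) / T) hc0 hB (fun m n hm0 hn0 hmn => htw m n hm0 hn0 hmn) x y hx hy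
    have e6 : (∑' q : ℕ+ × ℕ+, x q.1 * y q.2 *
        (((((((q.1 : ℕ) / (q.1 : ℕ).gcd q.2 : ℕ) : ℝ) * (((q.2 : ℕ) / (q.1 : ℕ).gcd q.2 : ℕ) : ℝ)) ^ (-(1 / 2 : ℝ)) : ℝ) : ℂ) *
        ((Pool.Agent.H306R2.aF s : ℂ) * Pool.Agent.X110.NA.Mx κ a τ b *
          ((Pool.Agent.X110.NA.Tf s ((q.1 : ℕ) / (q.1 : ℕ).gcd q.2) ((q.2 : ℕ) / (q.1 : ℕ).gcd q.2) : ℝ) : ℂ)))) =
        (ak s : ℂ) * (∏ j, ∏ i, (1 + Complex.I * ((a j - b i : ℝ) : ℂ) / 2) ^ (-((κ j * τ i : ℝ) : ℂ))) *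
              ∑' q : ℕ+ × ℕ+, x q.1 * y q.2 *
                ((tf s ((q.1 : ℕ) / (q.1 : ℕ).gcd q.2) ((q.2 : ℕ) / (q.1 : ℕ).gcd q.2) : ℝ) : ℂ) := by
      rw [← tsum_mul_left]
      refine tsum_congr fun q => ?_
      rw [← tf_eq hs, ak_eq hs]
      unfold Pool.Agent.X110.NA.Mx
      push_cast
      ring
    rw [e6] at h5
    exact h5

end Pool.Agent.Results.MP_91b7ff_nt.TwistedMixedMoments
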