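import Mathlib
import Pool.Agent.X114.TM5

/-!
# Moments of zeta on the critical line are decided by sparse sums over thin sets of translates

Let `k > 0` be real (the exponent of `|ζ|`), `κ ≥ 1`, and consider the upper bound

  (M)   `∫_T^{2T} |ζ(1/2 + it)|^k dt = O (T ^ (κ + ε))`   for every `ε > 0`;

for `κ = 1` it is the upper bound in the conjectured formula up to `T ^ ε`; it is known for `k ≤ 4` and open for
every `k > 4`.  Let `t n → ∞` be any sequence with `t (n + 1) - t n → 0`, however slowly, and let `E` be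
any set of real numbers of positive logarithmic capacity (it may have Hausdorff dimension `0`).

1. If for every `α ∈ E` the sums of `|ζ(1/2 + i (t n + α))| ^ k` over `T ≤ t n ≤ 2T` are `O (T ^ (κ + ε))`, with
   constants which may depend on `α`, then (M) holds.
2. Conversely, (M) implies these bounds for every real `α`, if there are at most `O (x ^ ε)` numbers `t n` in
   `[x, x + 1]`.

So for all such sequences `t` (1. and 2.) the moment bound (M), the bounds for the sums with all `α`, and the bounds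
for the sums with `α ∈ E` are equivalent.  If (M) is false for some `k` and `κ`, then for each sequence `t` the
translates `α` for which the sampled bound is true form a set of inner capacity zero.

The natural sampling distance of the zeta function at height `T` is `1 / log T` (Gallagher's inequality: the sum
over points of this mutual distance is comparable with the integral).  Here the distances tend to `0` arbitrarily
slowly, so that for a single `α` the sum carries almost no information on the moment, and the sets `E` which are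
sufficient are null sets.

Proof.  Pointwise inequality: for every `ω > 0`, if `s` is a set of at least `4 r log T` points of `[T - r, T + r]`
with logarithmic energy at most `η log T` per point, then
`|ζ(1/2 + iT)| ≤ C T^(-0.18 r) (1 + max_{|u - T| ≤ T^ω} |ζ(1/2 + iu)|) + 2 T^(2η) max_{x ∈ s} |ζ(1/2 + ix)|`
(Cauchy's formula in the disc of radius `4r` with poles at the points of `s`, the functional equation, and a
harmonic majorant).  A set of positive capacity contains such configurations, as `r → 0`, with `η → 0`, and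
`s` is taken to be a translate by some `t n` of one of them.  Raised to the power `k` and summed over local maxima
this improves the exponent of the moments by `0.1 r k`, as long as it is larger than `κ + 2 η k`; iterate.
-/

set_option autoImplicit false

open Filter Topology MeasureTheory Set

namespace Pool.Agent.Results.MP_91b7ff_nt.UndersampledMoments

/-- The modulus of the zeta function on the critical line. -/
noncomputable def Z (t : ℝ) : ℝ := ‖riemannZeta (1 / 2 + t * Complex.I)‖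

/-- `∫_T^{2T} |ζ(1/2 + it)|^k dt = O (T ^ (κ + ε))` for `T ≥ 1`, for every `ε > 0`. -/
def MomentBound (k κ : ℝ) : Prop := ∀ ε : ℝ, 0 < ε → ∃ C : ℝ, ∀ T : ℝ, 1 ≤ T →
  ∫ x in T..(2 * T), Z x ^ k ≤ C * T ^ (κ + ε)

/-- The sum of `|ζ(1/2 + i (t n + α))|^k` over the `n` with `T ≤ t n ≤ 2 T` (that is, over every finite set of
such `n`) is `O (T ^ (κ + ε))` for `T ≥ 1`, for every `ε > 0`. -/
def SampleBound (t : ℕ → ℝ) (k κ α : ℝ) : Prop := ∀ ε : ℝ, 0 < ε → ∃ C : ℝ, ∀ T : ℝ, 1 ≤ T →
  ∀ F : Finset ℕ, (∀ n ∈ F, T ≤ t n ∧ t n ≤ 2 * T) → ∑ n ∈ F, Z (t n + α) ^ k ≤ C * T ^ (κ + ε)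

/-- The interval `[x, x + 1]`, `x ≥ 0`, contains `t n` for at most `O ((1 + x) ^ ε)` numbers `n`, for every
`ε > 0`. -/
def Sparse (t : ℕ → ℝ) : Prop := ∀ ε : ℝ, 0 < ε → ∃ C : ℝ, ∀ x : ℝ, 0 ≤ x → ∀ F : Finset ℕ,
  (∀ n ∈ F, x ≤ t n ∧ t n ≤ x + 1) → (F.card : ℝ) ≤ C * (1 + x) ^ ε

/-- Positive (inner) logarithmic capacity: `E` carries a nonzero finite measure without point masses whose
logarithmic energy `∬ log⁺ (1 / |x - y|) dν(x) dν(y)` is finite. -/
def PosCap (E : Set ℝ) : Prop := ∃ ν : Measure ℝ, ν univ ≠ ⊤ ∧ ν ≠ 0 ∧ ν Eᶜ = 0 ∧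
  (∀ x : ℝ, ν {x} = 0) ∧
  ∫⁻ x, ∫⁻ y, ENNReal.ofReal (Real.log (1 / |x - y|)) ∂ν ∂ν ≠ ⊤

open Pool.Agent.X114.TS (w)
open Pool.Agent.X114.TM (IsMax P Samp)

lemma closed {k κ : ℝ} (h : ∀ η : ℝ, 0 < η → MomentBound k (κ + η)) : MomentBound k κ := by
  intro ε hε
  obtain ⟨C, hC⟩ := h (ε / 2) (by linarith) (ε / 2) (by linarith)
  refine ⟨C, fun t ht => ?_⟩
  have := hC t ht
  rwa [show κ + ε / 2 + ε / 2 = κ + ε by ring] at this

theorem sufficiency {k κ : ℝ} (hk : 0 < k) (hκ : 1 ≤ κ) {E : Set ℝ} (hE : PosCap E) {t : ℕ → ℝ}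
    (ht : Tendsto t atTop atTop) (hgap : Tendsto (fun n => t (n + 1) - t n) atTop (𝓝 0))
    (h : ∀ α ∈ E, SampleBound t k κ α) : MomentBound k κ := by
  apply closed
  intro ε₀ hε₀
  obtain ⟨u, hu⟩ := Pool.Agent.X114.TM.exists_isMax
  obtain ⟨ν, hfin, hν, hνE, hatom, hen⟩ := hE
  have : IsFiniteMeasure ν := ⟨lt_top_iff_ne_top.2 hfin⟩
  have : NullSingletonClass ν := ⟨hatom⟩
  -- the sets with uniform constants, in bounded intervals
  set A : ℕ → Set ℝ := fun m => {α | ∀ T : ℝ, 1 ≤ T → ∀ F : Finset ℕ,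
    (∀ n ∈ F, T ≤ t n ∧ t n ≤ 2 * T) → ∑ n ∈ F, Z (t n + α) ^ k ≤ m * T ^ (κ + ε₀)} with hA
  have hAc : ∀ m, IsClosed (A m) := by
    intro m
    have e : A m = ⋂ (T : ℝ) (_ : 1 ≤ T) (F : Finset ℕ) (_ : ∀ n ∈ F, T ≤ t n ∧ t n ≤ 2 * T),
        {α | ∑ n ∈ F, Z (t n + α) ^ k ≤ m * T ^ (κ + ε₀)} := by
      ext α
      simp [hA]
    rw [e]
    refine isClosed_iInter fun T => isClosed_iInter fun _ => isClosed_iInter fun F =>
      isClosed_iInter fun _ => ?_
    apply isClosed_le _ continuous_const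
    exact continuous_finsetSum _ fun n _ =>
      (Pool.Agent.X114.TM.Zq_cont hk).comp (by fun_prop : Continuous fun α : ℝ => t n + α)
  have hcov : E ⊆ ⋃ m : ℕ, A m ∩ Ico (-((m + 1 : ℕ) : ℝ)) ((m + 1 : ℕ) : ℝ) := by
    intro α hα
    obtain ⟨C, hC⟩ := h α hα ε₀ hε₀
    obtain ⟨m, hm⟩ := exists_nat_gt (max C |α|)
    have hm1 : C < m := (le_max_left _ _).trans_lt hm
    have hm2 : |α| < m := (le_max_right _ _).trans_lt hm
    rw [abs_lt] at hm2
    rw [mem_iUnion]
    refine ⟨m, ?_, ?_, ?_⟩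
    · intro T hT F hF
      refine (hC T hT F hF).trans ?_
      gcongr
    · push_cast; linarith
    · push_cast; linarith
  obtain ⟨m, hm⟩ : ∃ m : ℕ, ν (A m ∩ Ico (-((m + 1 : ℕ) : ℝ)) ((m + 1 : ℕ) : ℝ)) ≠ 0 := by
    by_contra hno
    push Not at hno
    apply hν
    rw [← Measure.measure_univ_eq_zero]
    refine measure_mono_null (t := (⋃ m : ℕ, A m ∩ Ico (-((m + 1 : ℕ) : ℝ)) ((m + 1 : ℕ) : ℝ)) ∪ Eᶜ) ?_ ?_
    · intro x _
      by_cases hx : x ∈ E
      · exact Or.inl (hcov hx)
      · exact Or.inr hx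
    · rw [measure_union_null_iff]
      exact ⟨measure_iUnion_null hno, hνE⟩
  set Y : Set ℝ := A m ∩ Ico (-((m + 1 : ℕ) : ℝ)) ((m + 1 : ℕ) : ℝ) with hY
  have hYm : MeasurableSet Y := (hAc m).measurableSet.inter measurableSet_Ico
  set μ : Measure ℝ := ν.restrict Y with hμ
  have : NullSingletonClass μ := ⟨fun x => by
    have := Measure.le_iff'.1 (Measure.restrict_le_self (μ := ν) (s := Y)) {x}
    rw [hatom x] at this
    exact le_antisymm this (zero_le)⟩
  have hμ0 : μ ≠ 0 := by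
    intro h0
    apply hm
    rw [← Measure.restrict_apply_self, ← hμ, h0]
    rfl
  have hμE : ∫⁻ x, ∫⁻ y, w x y ∂μ ∂μ ≠ ⊤ := by
    refine ne_top_of_le_ne_top hen ?_
    calc ∫⁻ x, ∫⁻ y, w x y ∂μ ∂μ ≤ ∫⁻ x, ∫⁻ y, w x y ∂ν ∂μ :=
          lintegral_mono fun x => lintegral_mono' Measure.restrict_le_self le_rfl
      _ ≤ ∫⁻ x, ∫⁻ y, w x y ∂ν ∂ν := lintegral_mono' Measure.restrict_le_self le_rfl
  have hμA : μ (A m ∩ Ico (-((m + 1 : ℕ) : ℝ)) ((m + 1 : ℕ) : ℝ))ᶜ = 0 := by
    rw [hμ, Measure.restrict_apply hYm.compl, compl_inter_self, measure_empty]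
  refine Pool.Agent.X114.TM.moment_of_P hu hk (by linarith)
    (Pool.Agent.X114.TM.iter hu hk (by linarith) fun η hη => ?_)
  obtain ⟨r, y₀, hr0, hr8, hconf⟩ := Pool.Agent.X114.TM.conf hμ0 hμE (hAc m).measurableSet
    (N := m + 1) (Nat.succ_pos m) hμA hη
  exact ⟨r, hr0, hr8, Pool.Agent.X114.TM.samp_seq hu (by linarith) hr0 hr8 hη ht hgap
    (A := A m) (K₀ := m) (fun α hα T hT F hF => hα T hT F hF) hconf⟩

theorem necessity {k κ : ℝ} (hk : 0 < k) (hκ : 1 ≤ κ) {t : ℕ → ℝ} (ht : Sparse t)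
    (h : MomentBound k κ) (α : ℝ) : SampleBound t k κ α := by
  obtain ⟨u, hu⟩ := Pool.Agent.X114.TM.exists_isMax
  refine Pool.Agent.X114.TM.sample_of_P hu hk (by linarith)
    (Pool.Agent.X114.TM.iter hu hk hκ fun η hη => ?_) ht α
  obtain ⟨r, y₀, hr0, hr8, hconf⟩ := Pool.Agent.X114.TM.conf_leb hη
  exact ⟨r, hr0, hr8, Pool.Agent.X114.TM.samp_int hu hk (by linarith) hr0 hr8 hη h hconf⟩

/-- **Undersampled moments.** -/
theorem result (k κ : ℝ) (hk : 0 < k) (hκ : 1 ≤ κ) (t : ℕ → ℝ) (ht : Tendsto t atTop atTop)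
    (hgap : Tendsto (fun n => t (n + 1) - t n) atTop (𝓝 0)) :
    -- the sums over a set of translates of positive capacity suffice
    (∀ E : Set ℝ, PosCap E → (∀ α ∈ E, SampleBound t k κ α) → MomentBound k κ) ∧
    -- the bound for the moments implies the bounds for all translates
    (Sparse t → MomentBound k κ → ∀ α : ℝ, SampleBound t k κ α) ∧
    -- the equivalence
    (Sparse t → ∀ E : Set ℝ, PosCap E → (MomentBound k κ ↔ ∀ α ∈ E, SampleBound t k κ α)) :=
  ⟨fun _ hE h => sufficiency hk hκ hE ht hgap h, fun hs h α => necessity hk hκ hs h α,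
    fun hs _ hE => ⟨fun h α _ => necessity hk hκ hs h α, fun h => sufficiency hk hκ hE ht hgap h⟩⟩

end Pool.Agent.Results.MP_91b7ff_nt.UndersampledMoments
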